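import Mathlib
import Pool.Agent.Lib.MP_dba578_co.DBD.Main

/-!
Seymour's even cycle cover conjecture: every counterexample gives a counterexample which is cubic, essentially
4-edge-connected, positive and without tight cyclic cuts, not larger and with no larger weights.

A graph is given by the finite types `V`, `E` and the ends `a e`, `b e` of every edge `e` (loops and parallel
edges allowed).
* `DBA.deg a b C v`: degree of `v` in the set `C` of edges (a loop counts twice).
* `DBA.IsCycle a b C`: `C` is nonempty, all its degrees are `0` or `2`, and it is connected: for every nonempty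
  proper subset `D` of `C` some vertex has positive degree in `D` and in `C \ D`.
* `DBA.IsSumOfCycles a b x`: there are finitely many cycles such that every edge `e` is in exactly `x e` of them.
* `DBD.cut a b X`: the edges with exactly one end in `X`.
* `DBD.Adm a b x`: condition (3.1), for all edge cuts: for `e` in a cut, `x e` is at most the sum of `x` over the
  other edges of the cut.
* `DBD.Core a b x`: every vertex has degree 3, `x e > 0` for all `e`, and every cut with at least two vertices on
  both sides has at least 4 edges and, if it has at most as many edges as each side has vertices (in a cubic graph: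
  each side spans at least as many edges as it has vertices), satisfies (3.1) with strict inequality.
-/

set_option autoImplicit false

namespace Pool.Agent.Results.MP_dba578_co.CubicReduction

open DBA DBD

/-- Let `x ≤ M` (`M` even) be an even weight with (3.1) on a graph `(V, E)` which is not a sum of cycles.  Then there
is an even weight `x' ≤ M` with (3.1) on a graph `(V', E')` with `|V'| ≤ |V| + ∑_v max (deg v - 3) 0`, which is not a
sum of cycles and satisfies `Core`. -/
theorem result {V E : Type} [Fintype V] [DecidableEq V] [Fintype E] [DecidableEq E]
    (a b : E → V) (x : E → ℕ) (M : ℕ) (hM : Even M) (hx : ∀ e, Even (x e)) (hxM : ∀ e, x e ≤ M)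
    (hA : Adm a b x) (hno : ¬ IsSumOfCycles a b x) :
    ∃ (V' E' : Type) (_ : Fintype V') (_ : DecidableEq V') (_ : Fintype E') (_ : DecidableEq E')
      (a' b' : E' → V') (x' : E' → ℕ),
      Fintype.card V' ≤ Fintype.card V + ∑ v, (deg a b Finset.univ v - 3) ∧
      (∀ e, Even (x' e)) ∧ (∀ e, x' e ≤ M) ∧ Adm a' b' x' ∧ ¬ IsSumOfCycles a' b' x' ∧
      Core a' b' x' := by
  by_contra hcon
  apply hno
  refine DBD.main M _ hM ?_ V E a b x le_rfl hx hxM hA
  intro V' E' i1 i2 i3 i4 a' b' x' h1 h2 h3 h4 h5
  by_contra h6
  exact hcon ⟨V', E', i1, i2, i3, i4, a', b', x', h1, h3, h4, h5, h6, h2⟩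

end Pool.Agent.Results.MP_dba578_co.CubicReduction
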