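import Mathlib
import Pool.Agent.Lib.MP_dba578_co.DBA.Main4

/-!
Seymour's even cycle cover conjecture for even weights of large strength.

A graph is given by the finite types `V`, `E` and the ends `a e`, `b e` of every edge `e` (loops and parallel
edges allowed).
* `DBA.deg a b C v`: degree of `v` in the set `C` of edges (a loop counts twice).
* `DBA.IsCycle a b C`: `C` is nonempty, all its degrees are `0` or `2`, and it is connected: for every nonempty
  proper subset `D` of `C` some vertex has positive degree in `D` and in `C \ D`.
* `DBA.IsSumOfCycles a b x`: there are finitely many cycles such that every edge `e` is in exactly `x e` of them.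
-/

set_option autoImplicit false

namespace Pool.Agent.Results.MP_dba578_co.StrongWeights

open DBA

/-- Let `x` be an even weight.
(1) Let `m : E → ℕ` (called levels) with `x e ≤ 4 * m e`, and assume that every edge `e` has its ends in a vertex set `K`
such that for every partition of `K` (given by `f : V → V`; `K.image f` is the set of the classes) which does
not separate the ends of an edge `g` of larger level `m g > m e`: the edges `g` inside `K` which join different
classes satisfy `∑ min (x g) (4 * m e - x g) ≥ 4 * m e * (number of classes - 1)`.  Then `x` is a sum of cycles.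
(2) In particular `x` is a sum of cycles if every edge `e` with `x e > 0` has its ends in a vertex set `K` such
that every cut of the induced subgraph `G[K]` has weight at least `4 * x e`. -/
theorem result {V E : Type} [Fintype V] [DecidableEq V] [Fintype E] [DecidableEq E]
    (a b : E → V) (x : E → ℕ) (hx : ∀ e, Even (x e)) :
    (∀ m : E → ℕ, (∀ e, x e ≤ 4 * m e) →
      (∀ e, ∃ K : Finset V, a e ∈ K ∧ b e ∈ K ∧
        ∀ f : V → V, (∀ g, m e < m g → f (a g) = f (b g)) →
          4 * m e * ((K.image f).card - 1) ≤
            ∑ g ∈ Finset.univ.filter (fun g : E => a g ∈ K ∧ b g ∈ K ∧ f (a g) ≠ f (b g)),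
              min (x g) (4 * m e - x g)) →
      IsSumOfCycles a b x) ∧
    ((∀ e, 0 < x e → ∃ K : Finset V, a e ∈ K ∧ b e ∈ K ∧
        ∀ X ⊆ K, X.Nonempty → X ≠ K → 4 * x e ≤
          ∑ g ∈ Finset.univ.filter
            (fun g : E => (a g ∈ X ∧ b g ∈ K \ X) ∨ (b g ∈ X ∧ a g ∈ K \ X)), x g) →
      IsSumOfCycles a b x) :=
  ⟨fun m hm H => main_levels a b x hx m hm H, fun H => main_cut4 a b x hx H⟩

end Pool.Agent.Results.MP_dba578_co.StrongWeights
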